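import Pool.Agent.P.MP_b3a239_gt.Main
import Pool.Agent.P.MP_b3a239_gt.NotCyc
import Pool.Agent.P.MP_b3a239_gt.Stmt

open Pool.Agent.P.MP_b3a239_gt

theorem Pool.Agent.Results.MP_b3a239_gt.Presentation.result :
    (∀ L : List (ℕ × ℕ), (∀ x ∈ L, 2 ≤ x.1 ∧ x.1.Coprime x.2) → 2 ≤ L.length →
      Nonempty (Sk L ≃ₗ[R] Md L) ∧ NormalSpan L ∧ TorsionKer L ∧ TorsionKilled (Sk L) ∧
        Module.rank R (Sk L) = ((L.map fun x => x.1 / 2 + 1).prod : ℕ) ∧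
        ¬ TorsionFG (Sk L) ∧ ¬ Module.Free R (Sk L) ∧
        ∀ i j, i < j → j < L.length → 3 ≤ (par L i).1 → 3 ≤ (par L j).1 → ¬ CyclicSum (Sk L)) ∧
    IsEmpty (Sk [(3, 1), (3, 1)] ≃ₗ[R] Sk [(3, 1), (3, 2)]) ∧
    IsEmpty (Sk [(3, 2), (3, 2)] ≃ₗ[R] Sk [(3, 1), (3, 2)]) := by
  refine ⟨fun L hL hn => ?_, main.2⟩
  obtain ⟨e, h₁, -, h₂, h₃, h₄, h₅⟩ := main.1 L hL hn
  obtain ⟨φ, h₆, h₇⟩ := exists_phi hL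
  refine ⟨⟨e⟩, h₁, ⟨φ, h₆, h₇.symm⟩, h₂, h₃, h₄, h₅, fun i j hij hj hi' hj' h => ?_⟩
  obtain ⟨ι, I, ⟨e'⟩⟩ := h
  exact (not_cyclic hL hij hj hi' hj' I).false (e.symm.trans e')
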